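import Mathlib

/-!
# Conservative real Hénon maps with a single periodic point

For every degree `d ≥ 2` and every Jacobian `b = ±1` the conservative Hénon map
`f(x, y) = ((1 + b) x + x ^ d - b y, x)` has exactly one periodic point, the origin, so that the
open annulus `ℝ² \ {0}` is an annular rotation domain of `f`.

Proof. An orbit of period `n` is a periodic sequence with
`x (k + 2) + b x k = (1 + b) x (k + 1) + x (k + 1) ^ d`. For even `d` sum over a period; for odd `d`
multiply by `x (k + 1)` before summing.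
-/

set_option autoImplicit false

open Polynomial

namespace Pool.Agent.Results.MP_8a808a_an.PuncturedPlane

/-- The real polynomial Hénon map `f(x, y) = (p(x) - b y, x)`. -/
noncomputable def henon (p : ℝ[X]) (b : ℝ) (z : ℝ × ℝ) : ℝ × ℝ := (p.eval z.1 - b * z.2, z.1)

/-- `A` is an annular rotation domain of `f`: an open set homeomorphic to the open annulus
`S¹ × (0, 1)` with `f(A) = A`, without periodic points of `f`. -/
structure IsAnnularRotationDomain (f : ℝ × ℝ → ℝ × ℝ) (A : Set (ℝ × ℝ)) : Prop where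
  isOpen : IsOpen A
  annulus : Nonempty (A ≃ₜ (Metric.sphere (0 : ℂ) 1 × Set.Ioo (0 : ℝ) 1))
  invariant : f '' A = A
  noPeriodic : ∀ z ∈ A, ∀ n : ℕ, 0 < n → f^[n] z ≠ z

/-- `(0, ∞)` and `(0, 1)` are homeomorphic. -/
noncomputable def ray : Set.Ioi (0 : ℝ) ≃ₜ Set.Ioo (0 : ℝ) 1 where
  toFun x := ⟨x.1 / (1 + x.1), by
    have hx : (0 : ℝ) < x.1 := x.2
    constructor
    · positivity
    · rw [div_lt_one (by positivity)]
      linarith⟩
  invFun y := ⟨y.1 / (1 - y.1), by
    have h0 : (0 : ℝ) < y.1 := y.2.1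
    have h1 : y.1 < (1 : ℝ) := y.2.2
    exact div_pos h0 (by linarith)⟩
  left_inv x := by
    have hx : (0 : ℝ) < x.1 := x.2
    ext
    simp only
    field_simp
    ring
  right_inv y := by
    have h0 : (0 : ℝ) < y.1 := y.2.1
    have h1 : y.1 < (1 : ℝ) := y.2.2
    have h2 : (1 : ℝ) - y.1 ≠ 0 := by linarith
    ext
    simp only
    field_simp
    ring
  continuous_toFun := by
    refine Continuous.subtype_mk (Continuous.div (by fun_prop) (by fun_prop) ?_) _
    intro x
    have hx : (0 : ℝ) < x.1 := x.2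
    positivity
  continuous_invFun := by
    refine Continuous.subtype_mk (Continuous.div (by fun_prop) (by fun_prop) ?_) _
    intro y
    have h1 : y.1 < (1 : ℝ) := y.2.2
    linarith

/-- `ℝ² \ {0}` is an open annulus. -/
theorem punctured : Nonempty (({0}ᶜ : Set (ℝ × ℝ)) ≃ₜ
    (Metric.sphere (0 : ℂ) 1 × Set.Ioo (0 : ℝ) 1)) := by
  let e : ℂ ≃ₜ ℝ × ℝ := Complex.equivRealProdCLM.toHomeomorph
  have he : ∀ z : ℂ, z ∈ ({0}ᶜ : Set ℂ) ↔ e z ∈ ({0}ᶜ : Set (ℝ × ℝ)) := by
    intro z
    simp only [Set.mem_compl_iff, Set.mem_singleton_iff]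
    have h0 : e 0 = 0 := Complex.equivRealProdCLM.map_zero
    rw [← h0, e.injective.eq_iff]
  exact ⟨((e.subtype he).symm.trans (homeomorphUnitSphereProd ℂ)).trans
    ((Homeomorph.refl _).prodCongr ray)⟩

/-- the sum over a period of a shifted periodic sequence -/
theorem shift {n : ℕ} {g : ℕ → ℝ} (hg : ∀ k, g (k + n) = g k) :
    ∑ k ∈ Finset.range n, g (k + 1) = ∑ k ∈ Finset.range n, g k := by
  have h := Finset.sum_range_succ' g n
  rw [Finset.sum_range_succ] at h
  have h0 := hg 0
  rw [zero_add] at h0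
  linarith

theorem seq_zero {d : ℕ} (hd : 2 ≤ d) {b : ℝ} (hb : b = 1 ∨ b = -1) {n : ℕ} {x : ℕ → ℝ}
    (hx : ∀ k, x (k + n) = x k)
    (hr : ∀ k, x (k + 2) = (1 + b) * x (k + 1) + x (k + 1) ^ d - b * x k) :
    ∀ k < n, x k = 0 := by
  have e0 : ∀ g : ℕ → ℝ, (∀ k, g (k + n) = g k) →
      ∑ k ∈ Finset.range n, g (k + 1) = ∑ k ∈ Finset.range n, g k := fun g hg => shift hg
  rcases Nat.even_or_odd d with hev | hodd
  · have h1 := e0 x hx
    have h2 := e0 (fun k => x (k + 1)) (fun k => by
      show x (k + n + 1) = x (k + 1)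
      rw [add_right_comm, hx])
    have h3 := e0 (fun k => x k ^ d) (fun k => by
      show x (k + n) ^ d = x k ^ d
      rw [hx])
    have h4 : ∑ k ∈ Finset.range n, x (k + 2) = (1 + b) * ∑ k ∈ Finset.range n, x (k + 1) +
        ∑ k ∈ Finset.range n, x (k + 1) ^ d - b * ∑ k ∈ Finset.range n, x k := by
      rw [Finset.mul_sum, Finset.mul_sum, ← Finset.sum_add_distrib, ← Finset.sum_sub_distrib]
      exact Finset.sum_congr rfl fun k _ => hr k
    have h5 : ∑ k ∈ Finset.range n, x k ^ d = 0 := by
      rw [← h3]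
      have h2' : ∑ k ∈ Finset.range n, x (k + 2) = ∑ k ∈ Finset.range n, x (k + 1) := h2
      rw [h2', h1] at h4
      linarith
    have h6 := (Finset.sum_eq_zero_iff_of_nonneg fun k _ => hev.pow_nonneg (x k)).1 h5
    intro k hk
    exact pow_eq_zero_iff (by omega) |>.1 (h6 k (Finset.mem_range.2 hk))
  · have hev : Even (d + 1) := hodd.add_one
    set Q := ∑ k ∈ Finset.range n, x k ^ 2 with hQ
    set C := ∑ k ∈ Finset.range n, x k * x (k + 1) with hC
    have h1 : ∑ k ∈ Finset.range n, x (k + 1) ^ 2 = Q :=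
      e0 (fun k => x k ^ 2) (fun k => by
        show x (k + n) ^ 2 = x k ^ 2
        rw [hx])
    have h2 : ∑ k ∈ Finset.range n, x (k + 1) * x (k + 2) = C :=
      e0 (fun k => x k * x (k + 1)) (fun k => by
        show x (k + n) * x (k + n + 1) = x k * x (k + 1)
        rw [hx, add_right_comm, hx])
    have h3 : ∑ k ∈ Finset.range n, x (k + 1) ^ (d + 1) = ∑ k ∈ Finset.range n, x k ^ (d + 1) :=
      e0 (fun k => x k ^ (d + 1)) (fun k => by
        show x (k + n) ^ (d + 1) = x k ^ (d + 1)
        rw [hx])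
    have h4 : ∑ k ∈ Finset.range n, x (k + 1) * x (k + 2) =
        (1 + b) * ∑ k ∈ Finset.range n, x (k + 1) ^ 2 +
        ∑ k ∈ Finset.range n, x (k + 1) ^ (d + 1) - b * ∑ k ∈ Finset.range n, x k * x (k + 1) := by
      rw [Finset.mul_sum, Finset.mul_sum, ← Finset.sum_add_distrib, ← Finset.sum_sub_distrib]
      refine Finset.sum_congr rfl fun k _ => ?_
      rw [hr k]
      ring
    have h5 : 0 ≤ Q - C := by
      have h6 : ∑ k ∈ Finset.range n, (x k - x (k + 1)) ^ 2 = 2 * (Q - C) := by
        have h7 : ∑ k ∈ Finset.range n, (x k - x (k + 1)) ^ 2 =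
            ∑ k ∈ Finset.range n, x k ^ 2 + ∑ k ∈ Finset.range n, x (k + 1) ^ 2 -
            2 * ∑ k ∈ Finset.range n, x k * x (k + 1) := by
          rw [Finset.mul_sum, ← Finset.sum_add_distrib, ← Finset.sum_sub_distrib]
          exact Finset.sum_congr rfl fun k _ => by ring
        rw [h7, h1]
        ring
      have h8 : 0 ≤ ∑ k ∈ Finset.range n, (x k - x (k + 1)) ^ 2 :=
        Finset.sum_nonneg fun k _ => sq_nonneg _
      linarith
    rw [h2, h1, h3] at h4
    have hb0 : 0 ≤ 1 + b := by rcases hb with h | h <;> rw [h] <;> norm_num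
    have h9 : ∑ k ∈ Finset.range n, x k ^ (d + 1) = 0 := by
      refine le_antisymm ?_ (Finset.sum_nonneg fun k _ => hev.pow_nonneg (x k))
      have h10 : C = (1 + b) * Q + ∑ k ∈ Finset.range n, x k ^ (d + 1) - b * C := h4
      nlinarith [mul_nonneg hb0 h5]
    have h6 := (Finset.sum_eq_zero_iff_of_nonneg fun k _ => hev.pow_nonneg (x k)).1 h9
    intro k hk
    exact pow_eq_zero_iff (by omega) |>.1 (h6 k (Finset.mem_range.2 hk))

/-- **Conservative Hénon maps with a single periodic point.** For every degree `d ≥ 2` and both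
`b = 1` and `b = -1` there is a real polynomial `p` of degree `d` such that the origin is the only
periodic point of the Hénon map `(x, y) ↦ (p(x) - b y, x)`, and `ℝ² \ {0}` is an annular rotation
domain of this map. -/
theorem result (d : ℕ) (hd : 2 ≤ d) (b : ℝ) (hb : b = 1 ∨ b = -1) :
    ∃ p : ℝ[X], p.natDegree = d ∧ henon p b 0 = 0 ∧
      IsAnnularRotationDomain (henon p b) {0}ᶜ := by
  have hb0 : b ≠ 0 := by rcases hb with h | h <;> rw [h] <;> norm_num
  set p : ℝ[X] := X ^ d + C (1 + b) * X with hp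
  have hev : ∀ x : ℝ, p.eval x = (1 + b) * x + x ^ d := by
    intro x
    rw [hp, eval_add, eval_pow, eval_X, eval_mul, eval_C, eval_X]
    ring
  have h00 : henon p b 0 = 0 := by
    unfold henon
    rw [hev]
    simp [show d ≠ 0 by omega]
  have hinj : Function.Injective (henon p b) := by
    rintro ⟨x, y⟩ ⟨x', y'⟩ h
    unfold henon at h
    rw [Prod.mk.injEq] at h
    obtain ⟨h1, h2⟩ := h
    simp only at h1 h2
    subst h2
    have h3 : b * y = b * y' := by linarith
    rw [mul_left_cancel₀ hb0 h3]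
  have hsurj : Function.Surjective (henon p b) := by
    rintro ⟨u, v⟩
    refine ⟨(v, (p.eval v - u) / b), ?_⟩
    unfold henon
    simp only
    rw [mul_div_cancel₀ _ hb0]
    simp
  refine ⟨p, ?_, h00, ?_⟩
  · rw [hp, natDegree_add_eq_left_of_natDegree_lt]
    · exact natDegree_X_pow d
    · rw [natDegree_X_pow]
      refine lt_of_le_of_lt (natDegree_C_mul_le _ _) ?_
      rw [natDegree_X]
      omega
  · refine ⟨isOpen_compl_singleton, punctured, ?_, ?_⟩
    · rw [Set.image_compl_eq ⟨hinj, hsurj⟩, Set.image_singleton, h00]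
    · intro z hz n hn hper
      set x : ℕ → ℝ := fun k => ((henon p b)^[k] z).2 with hx
      have h1 : ∀ k, ((henon p b)^[k] z).1 = x (k + 1) := by
        intro k
        simp only [hx, Function.iterate_succ_apply']
        rfl
      have hr : ∀ k, x (k + 2) = (1 + b) * x (k + 1) + x (k + 1) ^ d - b * x k := by
        intro k
        rw [← h1 (k + 1), Function.iterate_succ_apply']
        show p.eval ((henon p b)^[k] z).1 - b * ((henon p b)^[k] z).2 = _
        rw [hev, h1 k]
      have hxp : ∀ k, x (k + n) = x k := by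
        intro k
        simp only [hx, Function.iterate_add_apply, hper]
      have h2 := seq_zero hd hb hxp hr
      have h3 : x 0 = 0 := h2 0 hn
      have h4 : x 1 = 0 := by
        rcases Nat.lt_or_ge 1 n with h | h
        · exact h2 1 h
        · have hn1 : n = 1 := by omega
          subst hn1
          have := hxp 0
          rw [zero_add] at this
          rw [this, h3]
      apply hz
      rw [Set.mem_singleton_iff]
      refine Prod.ext ?_ ?_
      · rw [show z.1 = x 1 from h1 0, h4]
        rfl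
      · show x 0 = 0
        exact h3

end Pool.Agent.Results.MP_8a808a_an.PuncturedPlane
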